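import Pool.Agent.Work.MP_f41da7_an.Defs
import Pool.Agent.Work.MP_f41da7_an.Link

set_option autoImplicit false

/-!
# A counterexample for the number of nonreal zeros of derivatives of Bessel functions
-/

namespace Pool.Agent.Results.MP_f41da7_an.ThirdDerivative

open Pool.Agent.BesselCex

/-- For `n = 3`, `s = 1`, `ν = -1/2` one has `n - 2s - 2 < ν < n - 2s - 1`, but `J_ν^{(n)}` has
exactly two nonreal zeros (both purely imaginary), and not `4s + 2 = 6`. -/
theorem result : ∃ (n s : ℕ) (ν : ℝ), n = 3 ∧ s = 1 ∧ ν = -1 / 2 ∧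
    (n : ℝ) - 2 * s - 2 < ν ∧ ν < (n : ℝ) - 2 * s - 1 ∧
    ∃ G : ℂ → ℂ, IsG ν n G ∧ HasNonrealCount G 2 2 ∧ ¬ HasNonrealCount G (4 * s + 2) 2 := by
  classical
  refine ⟨3, 1, -1 / 2, rfl, rfl, rfl, by norm_num, by norm_num, fun z => C0 * F z, ?_, ?_⟩
  · refine ⟨F_differentiable.const_mul C0, fun z => ?_, fun z hz => ?_⟩
    · show C0 * F (-z) = C0 * F z
      rw [F_neg]
    · exact bessel_third hz
  obtain ⟨y, hy, hgy, hzeros⟩ := nonreal_zeros
  set a : ℂ := y * Complex.I with ha
  have hne : a ≠ -a := by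
    intro h
    have h1 := congrArg Complex.im h
    rw [ha] at h1
    simp at h1
    linarith
  have hS : ∀ z, z ∈ ({a, -a} : Finset ℂ) ↔ z.im ≠ 0 ∧ C0 * F z = 0 := by
    intro z
    rw [Finset.mem_insert, Finset.mem_singleton, ← hzeros z]
    constructor
    · rintro ⟨h1, h2⟩
      exact ⟨h1, by rw [h2, mul_zero]⟩
    · rintro ⟨h1, h2⟩
      rcases mul_eq_zero.1 h2 with h | h
      · exact absurd h C0_ne
      · exact ⟨h1, h⟩
  have horder : ∀ t : ℝ, g t = 0 →
      analyticOrderNatAt (fun z => C0 * F z) (t * Complex.I) = 1 := by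
    intro t ht
    have hd : Differentiable ℂ fun z => C0 * F z := F_differentiable.const_mul C0
    have h1 : analyticOrderAt (fun z => C0 * F z) (t * Complex.I) = 1 := by
      refine (hd.analyticAt _).analyticOrderAt_eq_one_of_zero_deriv_ne_zero ?_ ?_
      · rw [F_imag, ht]; simp
      · have h2 : deriv (fun z => C0 * F z) (t * Complex.I) = C0 * deriv F (t * Complex.I) :=
          ((F_differentiable _).hasDerivAt.const_mul C0).deriv
        rw [h2]
        exact mul_ne_zero C0_ne (F_deriv_ne ht)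
    unfold analyticOrderNatAt
    rw [h1]; rfl
  have hoa : analyticOrderNatAt (fun z => C0 * F z) a = 1 := horder y hgy
  have hob : analyticOrderNatAt (fun z => C0 * F z) (-a) = 1 := by
    have h1 := horder (-y) (by rw [g_neg]; exact hgy)
    have h2 : (((-y : ℝ) : ℂ) * Complex.I) = -a := by rw [ha]; push_cast; ring
    rwa [h2] at h1
  have hsum : ∑ z ∈ ({a, -a} : Finset ℂ), analyticOrderNatAt (fun z => C0 * F z) z = 2 := by
    rw [Finset.sum_pair hne, hoa, hob]
  refine ⟨⟨{a, -a}, hS, hsum, ?_⟩, ?_⟩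
  · have hf : (({a, -a} : Finset ℂ).filter fun z => z.re = 0) = {a, -a} := by
      apply Finset.filter_true_of_mem
      intro z hz
      rw [Finset.mem_insert, Finset.mem_singleton] at hz
      rcases hz with rfl | rfl
      · rw [ha]; simp
      · rw [ha]; simp
    rw [hf]; exact hsum
  · rintro ⟨S, hS', hN, -⟩
    have hSeq : S = {a, -a} := by
      ext z
      rw [hS', hS]
    rw [hSeq, hsum] at hN
    norm_num at hN

end Pool.Agent.Results.MP_f41da7_an.ThirdDerivative
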